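import Pool.Agent.TH358.GP.Frob

set_option autoImplicit false

/-!
# The distribution relations in Goncharov's groups `B_n(F)`, over the integers
-/

namespace Pool.Agent.X321.GG

open scoped TensorProduct
open Polynomial H39Gon Pool.Agent.TH358.GP

section cl

variable {F : Type} [Field F]

theorem cl_of_ne {x : F} (h : x ≠ 0) : cl x = Additive.ofMul (Units.mk0 x h) := by
  simp [cl, h]

theorem cl_one' : cl (1 : F) = 0 := by
  rw [cl_of_ne one_ne_zero]
  have : Units.mk0 (1 : F) one_ne_zero = 1 := by ext; rfl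
  rw [this]; rfl

theorem cl_zero' : cl (0 : F) = 0 := by simp [cl]

theorem cl_mul' {x y : F} (hx : x ≠ 0) (hy : y ≠ 0) : cl (x * y) = cl x + cl y := by
  rw [cl_of_ne hx, cl_of_ne hy, cl_of_ne (mul_ne_zero hx hy), ← ofMul_mul]
  congr 1
  ext; rfl

theorem cl_prod' {ι : Type} (s : Finset ι) (f : ι → F) (h : ∀ i ∈ s, f i ≠ 0) :
    cl (∏ i ∈ s, f i) = ∑ i ∈ s, cl (f i) := by
  classical
  induction s using Finset.induction_on with
  | empty => simp [cl_one']
  | insert a s ha ih =>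
    rw [Finset.prod_insert ha, Finset.sum_insert ha,
      cl_mul' (h a (Finset.mem_insert_self a s))
        (Finset.prod_ne_zero_iff.2 fun i hi => h i (Finset.mem_insert_of_mem hi)),
      ih fun i hi => h i (Finset.mem_insert_of_mem hi)]

/-- `N • cl ζ ^ i = 0` -/
theorem smul_cl_root {ζ : F} {N : ℕ} (hN : N ≠ 0) (hζ : ζ ^ N = 1) (i : ℕ) :
    (N : ℤ) • cl (ζ ^ i) = 0 := by
  rw [← cl_pow N hN, ← pow_mul, mul_comm, pow_mul, hζ, one_pow, cl_one']

end cl

/-- the element `{x ^ N} - c ∑_i {ζ ^ i x}` -/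
noncomputable def DD {F : Type} [Field F] (N : ℕ) (c : ℤ) (ζ x : F) : ZP F :=
  Finsupp.single (some (x ^ N)) 1 - c • ∑ i ∈ Finset.range N, Finsupp.single (some (ζ ^ i * x)) 1

theorem wedge_smul_left {F : Type} [Field F] (c : ℤ) (a b : UV F) :
    exteriorPower.ιMulti ℤ 2 ![c • a, b] = c • exteriorPower.ιMulti ℤ 2 ![a, b] := by
  have h := (exteriorPower.ιMulti ℤ (M := UV F) 2).map_update_smul ![a, b] 0 c a
  have e1 : Function.update ![a, b] 0 (c • a) = ![c • a, b] := by
    funext i; fin_cases i <;> rfl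
  have e2 : Function.update ![a, b] 0 a = ![a, b] := by
    funext i; fin_cases i <;> rfl
  rwa [e1, e2] at h

theorem wedge_smul_right {F : Type} [Field F] (c : ℤ) (a b : UV F) :
    exteriorPower.ιMulti ℤ 2 ![a, c • b] = c • exteriorPower.ιMulti ℤ 2 ![a, b] := by
  have h := (exteriorPower.ιMulti ℤ (M := UV F) 2).map_update_smul ![a, b] 1 c b
  have e1 : Function.update ![a, b] 1 (c • b) = ![a, c • b] := by
    funext i; fin_cases i <;> rfl
  have e2 : Function.update ![a, b] 1 b = ![a, b] := by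
    funext i; fin_cases i <;> rfl
  rwa [e1, e2] at h

theorem wedge_add_left {F : Type} [Field F] (a a' b : UV F) :
    exteriorPower.ιMulti ℤ 2 ![a + a', b] =
      exteriorPower.ιMulti ℤ 2 ![a, b] + exteriorPower.ιMulti ℤ 2 ![a', b] := by
  have h := (exteriorPower.ιMulti ℤ (M := UV F) 2).map_update_add ![a, b] 0 a a'
  have e1 : ∀ c, Function.update ![a, b] 0 c = ![c, b] := by
    intro c; funext i; fin_cases i <;> rfl
  rwa [e1, e1, e1] at h

theorem wedge_add_right {F : Type} [Field F] (a b b' : UV F) :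
    exteriorPower.ιMulti ℤ 2 ![a, b + b'] =
      exteriorPower.ιMulti ℤ 2 ![a, b] + exteriorPower.ιMulti ℤ 2 ![a, b'] := by
  have h := (exteriorPower.ιMulti ℤ (M := UV F) 2).map_update_add ![a, b] 1 b b'
  have e1 : ∀ c, Function.update ![a, b] 1 c = ![a, c] := by
    intro c; funext i; fin_cases i <;> rfl
  rwa [e1, e1, e1] at h

theorem wedge_zero_left {F : Type} [Field F] (b : UV F) :
    exteriorPower.ιMulti ℤ 2 ![(0 : UV F), b] = 0 := by
  have h := wedge_smul_left (0 : ℤ) (0 : UV F) b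
  rwa [zero_smul, zero_smul] at h

theorem wedge_zero_right {F : Type} [Field F] (b : UV F) :
    exteriorPower.ιMulti ℤ 2 ![b, (0 : UV F)] = 0 := by
  have h := wedge_smul_right (0 : ℤ) b (0 : UV F)
  rwa [zero_smul, zero_smul] at h

theorem wedge_sum_left {F : Type} [Field F] {ι : Type} (s : Finset ι) (f : ι → UV F) (b : UV F) :
    exteriorPower.ιMulti ℤ 2 ![∑ i ∈ s, f i, b] =
      ∑ i ∈ s, exteriorPower.ιMulti ℤ 2 ![f i, b] := by
  classical
  induction s using Finset.induction_on with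
  | empty => simp only [Finset.sum_empty]; exact wedge_zero_left b
  | insert a s ha ih => rw [Finset.sum_insert ha, Finset.sum_insert ha, wedge_add_left, ih]

theorem delta2_single {F : Type} [Field F] (x : F) (c : ℤ) :
    delta2 F (Finsupp.single (some x) c) = c • exteriorPower.ιMulti ℤ 2 ![cl (1 - x), cl x] := by
  rw [delta2, Finsupp.linearCombination_single]

theorem one_sub_pow {F : Type} [Field F] {ζ : F} {N : ℕ} (hN : 0 < N) (hζ : IsPrimitiveRoot ζ N)
    (x : F) : 1 - x ^ N = ∏ i ∈ Finset.range N, (1 - ζ ^ i * x) := by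
  classical
  have h := hζ.pow_sub_pow_eq_prod_sub_mul (x := (1 : F)) (y := x) hN
  rw [one_pow] at h
  rw [h]
  have : Polynomial.nthRootsFinset N (1 : F) = (Finset.range N).image (fun i => ζ ^ i) := by
    ext y
    rw [Polynomial.mem_nthRootsFinset hN, Finset.mem_image]
    constructor
    · intro hy
      have : NeZero N := ⟨hN.ne'⟩
      obtain ⟨i, hi, hy⟩ := hζ.eq_pow_of_pow_eq_one hy
      exact ⟨i, Finset.mem_range.2 hi, hy⟩
    · rintro ⟨i, -, rfl⟩
      rw [← pow_mul, mul_comm, pow_mul, hζ.pow_eq_one, one_pow]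
  rw [this, Finset.prod_image]
  intro i hi j hj hij
  exact hζ.pow_inj (Finset.mem_range.1 hi) (Finset.mem_range.1 hj) hij

theorem pow_root {F : Type} [Field F] {ζ : F} {N : ℕ} (hζ : IsPrimitiveRoot ζ N) (i : ℕ) (x : F) :
    (ζ ^ i * x) ^ N = x ^ N := by
  rw [mul_pow, ← pow_mul, mul_comm i, pow_mul, hζ.pow_eq_one, one_pow, one_mul]

/-- the relation in weight `2` -/
theorem delta2_DD {F : Type} [Field F] {ζ : F} {N : ℕ} (hN : 0 < N) (hζ : IsPrimitiveRoot ζ N)
    (x : F) : delta2 F (DD N N ζ x) = 0 := by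
  unfold DD
  rw [map_sub, map_smul, map_sum, delta2_single, one_smul]
  simp only [delta2_single, one_smul]
  by_cases hx : x = 0
  · subst hx
    rw [zero_pow hN.ne', cl_zero']
    simp only [mul_zero, cl_zero', wedge_zero_right, Finset.sum_const_zero, smul_zero, sub_zero]
  have hζ0 : ζ ≠ 0 := hζ.ne_zero hN.ne'
  by_cases h1 : x ^ N = 1
  · rw [h1, cl_one', wedge_zero_right, zero_sub, neg_eq_zero, Finset.smul_sum]
    refine Finset.sum_eq_zero fun i _ => ?_
    rw [← wedge_smul_right, ← cl_pow N hN.ne', pow_root hζ, h1, cl_one', wedge_zero_right]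
  · have hne : ∀ i ∈ Finset.range N, 1 - ζ ^ i * x ≠ 0 := by
      intro i _ h0
      apply h1
      have h2 : ζ ^ i * x = 1 := (sub_eq_zero.1 h0).symm
      rw [← pow_root hζ i x, h2, one_pow]
    rw [one_sub_pow hN hζ, cl_prod' _ _ hne, wedge_sum_left, sub_eq_zero, Finset.smul_sum]
    refine Finset.sum_congr rfl fun i _ => ?_
    rw [← wedge_smul_right, ← cl_pow N hN.ne', pow_root hζ]

/-- the homotopy `x (1 - t)` -/
theorem homotopyD {F : Type} [Field F] (N : ℕ) (hN : N ≠ 0) (c : ℤ) (ζ : F)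
    (A : Submodule ℤ (ZP (RatFunc F))) (h : ∀ g : RatFunc F, DD N c (RatFunc.C ζ) g ∈ A) (x : F) :
    DD N c ζ x ∈ relSpan F A := by
  have hzero : (Finsupp.single (some 0) 1 : ZP F) ∈ relSpan F A :=
    Submodule.subset_span (Or.inl (Or.inl rfl))
  let P : F[X] := C x * (1 - X)
  have h1 := h (algebraMap F[X] (RatFunc F) P)
  have h3 : ∀ t0 : F, specZ F t0 (DD N c (RatFunc.C ζ) (algebraMap F[X] (RatFunc F) P)) =
      DD N c ζ (P.eval t0) := by
    intro t0
    unfold DD
    rw [map_sub, map_smul, map_sum, ← map_pow]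
    unfold specZ
    rw [Finsupp.lmapDomain_apply, Finsupp.mapDomain_single, spec_poly, eval_pow]
    congr 2
    refine Finset.sum_congr rfl fun i _ => ?_
    rw [Finsupp.lmapDomain_apply, Finsupp.mapDomain_single]
    have e : (RatFunc.C ζ : RatFunc F) ^ i * algebraMap F[X] (RatFunc F) P =
        algebraMap F[X] (RatFunc F) (C (ζ ^ i) * P) := by
      rw [map_mul (algebraMap F[X] (RatFunc F)) (C (ζ ^ i)) P, ← RatFunc.algebraMap_C, ← map_pow,
        C_pow]
    rw [e, spec_poly, eval_mul, eval_C]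
  have h2 : specZ F 0 (DD N c (RatFunc.C ζ) (algebraMap F[X] (RatFunc F) P)) -
      specZ F 1 (DD N c (RatFunc.C ζ) (algebraMap F[X] (RatFunc F) P)) ∈ relSpan F A :=
    Submodule.subset_span (Or.inr ⟨_, h1, rfl⟩)
  rw [h3, h3] at h2
  have e0 : P.eval 0 = x := by simp [P]
  have e1 : P.eval 1 = 0 := by simp [P]
  rw [e0, e1] at h2
  have h4 : DD N c ζ (0 : F) ∈ relSpan F A := by
    unfold DD
    rw [zero_pow hN]
    refine Submodule.sub_mem _ hzero (Submodule.smul_mem _ _ (Submodule.sum_mem _ fun i _ => ?_))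
    rw [mul_zero]
    exact hzero
  have h5 := Submodule.add_mem _ h2 h4
  rwa [sub_add_cancel] at h5

/-- the relation is in the kernel of `δ_{m + 3}` -/
theorem deltaS_DD {K : Type} [Field K] (N : ℕ) (hN : 0 < N) (m : ℕ) {ζ : K}
    (hζ : IsPrimitiveRoot ζ N) (g : K) (h1 : DD N ((N : ℤ) ^ (m + 1)) ζ g ∈ R (m + 2) K) :
    deltaS K (R (m + 2) K) (DD N ((N : ℤ) ^ (m + 1 + 1)) ζ g) = 0 := by
  unfold DD
  rw [map_sub, map_smul, map_sum, rm_deltaS_some, one_smul]
  simp only [rm_deltaS_some, one_smul]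
  by_cases hg : g = 0
  · subst hg
    rw [zero_pow hN.ne', cl_zero']
    simp only [mul_zero, cl_zero', TensorProduct.tmul_zero, Finset.sum_const_zero, smul_zero,
      sub_zero]
  have h2 : (R (m + 2) K).mkQ (Finsupp.single (some (g ^ N)) 1) =
      (N : ℤ) ^ (m + 1) • ∑ i ∈ Finset.range N,
        (R (m + 2) K).mkQ (Finsupp.single (some (ζ ^ i * g)) 1) := by
    rw [← map_sum, ← map_smul, ← sub_eq_zero, ← map_sub, Submodule.mkQ_apply,
      Submodule.Quotient.mk_eq_zero]
    exact h1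
  have h3 : ∀ (c : ℤ) (y : UV K) (z : ℕ → ZP K ⧸ R (m + 2) K),
      (c • ∑ i ∈ Finset.range N, z i) ⊗ₜ[ℤ] y = c • ∑ i ∈ Finset.range N, (z i) ⊗ₜ[ℤ] y := by
    intro c y z
    have h4 : (c • ∑ i ∈ Finset.range N, z i) ⊗ₜ[ℤ] y = c • ((∑ i ∈ Finset.range N, z i) ⊗ₜ[ℤ] y) :=
      (TensorProduct.smul_tmul' c _ y).symm
    rw [h4, TensorProduct.sum_tmul]
  have h5 : ∀ (u : ZP K ⧸ R (m + 2) K) (v : UV K),
      u ⊗ₜ[ℤ] ((N : ℤ) • v) = (N : ℤ) • (u ⊗ₜ[ℤ] v) := by
    intro u v
    have h6 := tmul_aux (R (m + 2) K) 1 N u v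
    rwa [one_smul, one_mul] at h6
  rw [h2, sub_eq_zero, h3, Finset.smul_sum, Finset.smul_sum]
  refine Finset.sum_congr rfl fun i _ => ?_
  rw [← pow_root hζ i g, cl_pow N hN.ne', h5, smul_smul, ← pow_succ]

/-- `{x ^ N} - N ^ (n - 1) ∑_i {ζ ^ i x} ∈ R_n(F)`, `n = m + 2`. -/
theorem dist_rel (N : ℕ) (hN : 0 < N) (m : ℕ) : ∀ (F : Type) [Field F] (ζ : F)
    (_ : IsPrimitiveRoot ζ N) (x : F), DD N ((N : ℤ) ^ (m + 1)) ζ x ∈ R (m + 2) F := by
  induction m with
  | zero =>
    intro F _ ζ hζ x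
    refine homotopyD N hN.ne' _ ζ _ (fun g => ?_) x
    rw [LinearMap.mem_ker, zero_add, pow_one]
    exact delta2_DD hN (hζ.map_of_injective (RatFunc.C_injective (K := F))) g
  | succ m ih =>
    intro F _ ζ hζ x
    refine homotopyD N hN.ne' _ ζ _ (fun g => ?_) x
    have hζ' : IsPrimitiveRoot (RatFunc.C ζ : RatFunc F) N :=
      hζ.map_of_injective (RatFunc.C_injective (K := F))
    rw [LinearMap.mem_ker]
    exact deltaS_DD N hN m hζ' g (ih (RatFunc F) (RatFunc.C ζ) hζ' g)

/-! ### the Frobenius relation -/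

theorem delta2_frob (p : ℕ) [hp : Fact p.Prime] {K : Type} [Field K] [CharP K p] (g : K) :
    delta2 K (Finsupp.single (some (g ^ p)) 1 - ((p : ℤ) ^ 2) • Finsupp.single (some g) 1) = 0 := by
  have hp0 : p ≠ 0 := hp.out.ne_zero
  rw [map_sub, map_smul, delta2_single, delta2_single, one_smul, one_smul]
  have h1 : (1 : K) - g ^ p = (1 - g) ^ p := by
    rw [sub_pow_char, one_pow]
  rw [h1, cl_pow p hp0, cl_pow p hp0, wedge_smul_left, wedge_smul_right, smul_smul, ← pow_two,
    sub_self]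

theorem deltaS_frob (p : ℕ) [hp : Fact p.Prime] {K : Type} [Field K] [CharP K p] (m : ℕ) (g : K) :
    deltaS K (R (m + 2) K) (Finsupp.single (some (g ^ p)) 1 -
      ((p : ℤ) ^ (m + 3)) • Finsupp.single (some g) 1) = 0 := by
  have hp0 : p ≠ 0 := hp.out.ne_zero
  rw [map_sub, map_smul, rm_deltaS_some, rm_deltaS_some, one_smul, one_smul]
  have h1 := frob_rel p m K (some g)
  have h2 : (R (m + 2) K).mkQ (Finsupp.single (some (g ^ p)) 1) =
      (p : ℤ) ^ (m + 2) • (R (m + 2) K).mkQ (Finsupp.single (some g) 1) := by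
    rw [← map_smul, ← sub_eq_zero, ← map_sub, Submodule.mkQ_apply, Submodule.Quotient.mk_eq_zero]
    exact h1
  rw [h2, cl_pow p hp0, sub_eq_zero, show (p : ℤ) ^ (m + 3) = (p : ℤ) ^ (m + 2) * p from
    pow_succ _ _]
  exact tmul_aux _ _ _ _ _

/-! ### dividing by a prime -/

/-- every element of `F` is an `l`-th power, and `F` has characteristic `l` or contains a
primitive `l`-th root of unity -/
def RootClosed (F : Type) [Field F] (l : ℕ) : Prop :=
  (∀ x : F, ∃ y : F, y ^ l = x) ∧ (CharP F l ∨ ∃ ζ : F, IsPrimitiveRoot ζ l)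

/-- dividing by `l` modulo `R_2(F) ∩ ker δ_2` -/
theorem divide2 {F : Type} [Field F] (l : ℕ) (hl : l.Prime) (h : RootClosed F l) (x : P1 F) :
    ∃ β : ZP F, Finsupp.single x 1 - (l : ℤ) • β ∈ R 2 F ⊓ LinearMap.ker (delta2 F) := by
  cases x with
  | none =>
    refine ⟨0, ?_, ?_⟩
    · rw [smul_zero, sub_zero]
      exact Submodule.subset_span (Or.inl (Or.inr rfl))
    · rw [smul_zero, sub_zero, SetLike.mem_coe, LinearMap.mem_ker, delta2,
        Finsupp.linearCombination_single, smul_zero]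
  | some x =>
    obtain ⟨y, rfl⟩ := h.1 x
    rcases h.2 with hc | ⟨ζ, hζ⟩
    · have : Fact l.Prime := ⟨hl⟩
      refine ⟨(l : ℤ) • Finsupp.single (some y) 1, ?_⟩
      have e : (Finsupp.single (some (y ^ l)) 1 - (l : ℤ) • (l : ℤ) • Finsupp.single (some y) 1 :
          ZP F) = Finsupp.single (some (y ^ l)) 1 - ((l : ℤ) ^ 2) • Finsupp.single (some y) 1 := by
        rw [smul_smul, pow_two]
      rw [e]
      exact ⟨frob_rel l 0 F (some y), delta2_frob l y⟩
    · refine ⟨∑ i ∈ Finset.range l, Finsupp.single (some (ζ ^ i * y)) 1, ?_, ?_⟩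
      · have h1 := dist_rel l hl.pos 0 F ζ hζ y
        rwa [zero_add, pow_one] at h1
      · exact delta2_DD hl.pos hζ y

/-- dividing by `l` modulo `R_n(F) ∩ ker δ_n`, `n = m + 3` -/
theorem divideS {F : Type} [Field F] (l : ℕ) (hl : l.Prime) (h : RootClosed F l) (m : ℕ)
    (x : P1 F) : ∃ β : ZP F, Finsupp.single x 1 - (l : ℤ) • β ∈
      R (m + 3) F ⊓ LinearMap.ker (deltaS F (R (m + 2) F)) := by
  cases x with
  | none =>
    refine ⟨0, ?_, ?_⟩
    · rw [smul_zero, sub_zero]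
      exact Submodule.subset_span (Or.inl (Or.inr rfl))
    · rw [smul_zero, sub_zero, SetLike.mem_coe, LinearMap.mem_ker, deltaS,
        Finsupp.linearCombination_single, smul_zero]
  | some x =>
    obtain ⟨y, rfl⟩ := h.1 x
    rcases h.2 with hc | ⟨ζ, hζ⟩
    · have : Fact l.Prime := ⟨hl⟩
      refine ⟨((l : ℤ) ^ (m + 2)) • Finsupp.single (some y) 1, ?_⟩
      have e : (Finsupp.single (some (y ^ l)) 1 -
          (l : ℤ) • ((l : ℤ) ^ (m + 2)) • Finsupp.single (some y) 1 : ZP F) =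
          Finsupp.single (some (y ^ l)) 1 - ((l : ℤ) ^ (m + 3)) • Finsupp.single (some y) 1 := by
        rw [smul_smul, ← pow_succ']
      rw [e]
      exact ⟨frob_rel l (m + 1) F (some y), deltaS_frob l m y⟩
    · refine ⟨((l : ℤ) ^ (m + 1)) • ∑ i ∈ Finset.range l, Finsupp.single (some (ζ ^ i * y)) 1, ?_⟩
      have e : (Finsupp.single (some (y ^ l)) 1 - (l : ℤ) • ((l : ℤ) ^ (m + 1)) •
          ∑ i ∈ Finset.range l, Finsupp.single (some (ζ ^ i * y)) 1 : ZP F) =
          DD l ((l : ℤ) ^ (m + 1 + 1)) ζ y := by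
        rw [smul_smul, ← pow_succ']
        rfl
      rw [e]
      exact ⟨dist_rel l hl.pos (m + 1) F ζ hζ y, deltaS_DD l hl.pos m hζ y
        (dist_rel l hl.pos m F ζ hζ y)⟩

/-- linear extension -/
theorem divide_all {F M : Type} [AddCommGroup M] (S : Submodule ℤ (ZP F))
    (δ : ZP F →ₗ[ℤ] M) (l : ℤ) (hM : ∀ u : M, l • u = 0 → u = 0)
    (h : ∀ x : P1 F, ∃ β : ZP F, Finsupp.single x 1 - l • β ∈ S ⊓ LinearMap.ker δ)
    (α : ZP F) (hα : δ α = 0) : ∃ β : ZP F, δ β = 0 ∧ α - l • β ∈ S := by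
  choose T hT using h
  have key : ∀ α : ZP F, α - l • (Finsupp.linearCombination ℤ T α) ∈ S ⊓ LinearMap.ker δ := by
    intro α
    induction α using Finsupp.induction_linear with
    | zero => rw [map_zero, smul_zero, sub_zero]; exact Submodule.zero_mem _
    | add f g hf hg =>
      have := Submodule.add_mem _ hf hg
      have e : f + g - l • (Finsupp.linearCombination ℤ T (f + g)) =
        (f - l • (Finsupp.linearCombination ℤ T f)) + (g - l • (Finsupp.linearCombination ℤ T g)) := by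
        rw [map_add, smul_add]; abel
      rw [e]
      exact this
    | single x c =>
      have := Submodule.smul_mem _ c (hT x)
      rw [Finsupp.linearCombination_single]
      have e : (Finsupp.single x c - l • c • T x : ZP F) = c • (Finsupp.single x 1 - l • T x) := by
        rw [smul_sub, smul_comm c l, Finsupp.smul_single, smul_eq_mul, mul_one]
      rw [e]
      exact this
  refine ⟨Finsupp.linearCombination ℤ T α, ?_, (key α).1⟩
  have h2 := (key α).2
  rw [SetLike.mem_coe, LinearMap.mem_ker, map_sub, hα, zero_sub, neg_eq_zero, map_smul] at h2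
  exact hM _ h2

end Pool.Agent.X321.GG
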