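import Mathlib

set_option autoImplicit false

/-!
# Tensor products and exterior powers of divisible groups
-/

namespace Pool.Agent.X321.GG

open scoped TensorProduct

section tens

variable {A B : Type} [AddCommGroup A] [AddCommGroup B] (l : ℕ)

theorem tors_tmul (hB : ∀ b : B, ∃ b', l • b' = b) (t : A) (ht : l • t = 0) (b : B) :
    t ⊗ₜ[ℤ] b = 0 := by
  obtain ⟨b', rfl⟩ := hB b
  have h1 : (t ⊗ₜ[ℤ] (l • b') : A ⊗[ℤ] B) = (l • t) ⊗ₜ[ℤ] b' := by
    rw [← natCast_zsmul, ← natCast_zsmul, TensorProduct.smul_tmul]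
  rw [h1, ht, TensorProduct.zero_tmul]

theorem tens_div (hA : ∀ a : A, ∃ a', l • a' = a) (hB : ∀ b : B, ∃ b', l • b' = b) :
    Function.Bijective (fun u : A ⊗[ℤ] B => l • u) := by
  choose s hs using hA
  have key := tors_tmul (A := A) l hB
  let f : A →+ B →+ A ⊗[ℤ] B := AddMonoidHom.mk' (fun a => AddMonoidHom.mk' (fun b => s a ⊗ₜ[ℤ] b)
    (fun b b' => TensorProduct.tmul_add _ _ _)) (by
      intro a a'
      ext b
      have h := key (s (a + a') - (s a + s a')) (by
        rw [smul_sub, smul_add, hs, hs, hs, sub_self]) b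
      rw [TensorProduct.sub_tmul, TensorProduct.add_tmul, sub_eq_zero] at h
      exact h)
  have hf : ∀ a b, f a b = s a ⊗ₜ[ℤ] b := fun _ _ => rfl
  let D : A ⊗[ℤ] B →+ A ⊗[ℤ] B := TensorProduct.liftAddHom (R := ℤ) f (by
    intro r a b
    rw [map_zsmul f, map_zsmul (f a)]
    rfl)
  have hD : ∀ a b, D (a ⊗ₜ[ℤ] b) = s a ⊗ₜ[ℤ] b := fun a b => rfl
  have h1 : ∀ u, D (l • u) = u := by
    intro u
    rw [map_nsmul]
    refine TensorProduct.induction_on u ?_ ?_ ?_
    · rw [map_zero, smul_zero]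
    · intro a b
      rw [hD, ← natCast_zsmul, TensorProduct.smul_tmul', natCast_zsmul, hs]
    · intro u v hu hv
      rw [map_add, smul_add, hu, hv]
  refine ⟨fun u v huv => ?_, fun u => ⟨D u, ?_⟩⟩
  · have h2 : D (l • u) = D (l • v) := congrArg D huv
    rwa [h1, h1] at h2
  · beta_reduce
    rw [← map_nsmul]
    exact h1 u

end tens

section ext

variable {B : Type} [AddCommGroup B] (l : ℕ)

/-- `b ↦ b ∧ ...` -/
noncomputable def wl (j : ℕ) : B →ₗ[ℤ] (B [⋀^Fin (j + 1)]→ₗ[ℤ] (⋀[ℤ]^(j + 2) B)) :=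
  (exteriorPower.ιMulti ℤ (j + 2)).curryLeft

theorem wl_apply (j : ℕ) (b : B) (v : Fin (j + 1) → B) :
    wl j b v = exteriorPower.ιMulti ℤ (j + 2) (Matrix.vecCons b v) := rfl

theorem wl_tors (hB : ∀ b : B, ∃ b', l • b' = b) {j : ℕ} (t : B) (ht : l • t = 0) :
    wl j t = 0 := by
  ext1 v
  obtain ⟨b', hb⟩ := hB (v 0)
  have e1 : v = Function.update v 0 ((l : ℤ) • b') := by
    rw [natCast_zsmul, hb, Function.update_eq_self]
  rw [e1, AlternatingMap.map_update_smul, AlternatingMap.zero_apply, ← AlternatingMap.smul_apply,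
    ← map_smul, natCast_zsmul, ht, map_zero, AlternatingMap.zero_apply]

theorem ext_div (hB : ∀ b : B, ∃ b', l • b' = b) (j : ℕ) :
    Function.Bijective (fun u : (⋀[ℤ]^(j + 2) B) => l • u) := by
  choose s hs using hB
  have key := fun t ht => wl_tors (B := B) l (fun b => ⟨s b, hs b⟩) (j := j) t ht
  let f : B →ₗ[ℤ] (B [⋀^Fin (j + 1)]→ₗ[ℤ] (⋀[ℤ]^(j + 2) B)) :=
    (AddMonoidHom.mk' (fun b => wl j (s b)) (by
      intro a a'
      have h := key (s (a + a') - (s a + s a')) (by
        rw [smul_sub, smul_add, hs, hs, hs, sub_self])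
      rw [map_sub, map_add, sub_eq_zero] at h
      exact h)).toIntLinearMap
  have hf : ∀ b, f b = wl j (s b) := fun _ => rfl
  let g : MultilinearMap ℤ (fun _ : Fin (j + 2) => B) (⋀[ℤ]^(j + 2) B) :=
    LinearMap.uncurryLeft (AlternatingMap.toMultilinearMapLM ∘ₗ f)
  have hg : ∀ v, g v = wl j (s (v 0)) (Fin.tail v) := fun _ => rfl
  -- vanishing if the first entry equals another one
  have hv0 : ∀ (v : Fin (j + 2) → B) (k : Fin (j + 1)), v 0 = v k.succ → g v = 0 := by
    intro v k h
    rw [hg]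
    have e1 : Fin.tail v = Function.update (Fin.tail v) k ((l : ℤ) • s (v 0)) := by
      rw [natCast_zsmul, hs, h]
      exact (Function.update_eq_self k (Fin.tail v)).symm
    rw [e1, AlternatingMap.map_update_smul, wl_apply]
    have h2 : exteriorPower.ιMulti ℤ (j + 2)
        (Matrix.vecCons (s (v 0)) (Function.update (Fin.tail v) k (s (v 0)))) = 0 := by
      refine AlternatingMap.map_eq_zero_of_eq _ _ (i := 0) (j := k.succ) ?_ (Fin.succ_ne_zero k).symm
      rw [Matrix.cons_val_zero, Matrix.cons_val_succ, Function.update_self]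
    rw [h2, smul_zero]
  let G : B [⋀^Fin (j + 2)]→ₗ[ℤ] (⋀[ℤ]^(j + 2) B) :=
    { g with
      map_eq_zero_of_eq' := by
        intro v i k h hne
        change g v = 0
        induction i using Fin.cases with
        | zero =>
          induction k using Fin.cases with
          | zero => exact absurd rfl hne
          | succ k => exact hv0 v k h
        | succ i =>
          induction k using Fin.cases with
          | zero => exact hv0 v i h.symm
          | succ k =>
            rw [hg]
            exact AlternatingMap.map_eq_zero_of_eq _ _ (i := i) (j := k) h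
              (fun h' => hne (by rw [h'])) }
  let D : (⋀[ℤ]^(j + 2) B) →ₗ[ℤ] (⋀[ℤ]^(j + 2) B) := exteriorPower.alternatingMapLinearEquiv G
  have hD : ∀ v, D (exteriorPower.ιMulti ℤ (j + 2) v) = wl j (s (v 0)) (Fin.tail v) := by
    intro v
    rw [exteriorPower.alternatingMapLinearEquiv_apply_ιMulti]
    rfl
  have h0 : (l : ℤ) • D = LinearMap.id := by
    apply exteriorPower.linearMap_ext
    ext1 v
    rw [LinearMap.compAlternatingMap_apply, LinearMap.compAlternatingMap_apply,
      LinearMap.smul_apply, hD, ← AlternatingMap.smul_apply, ← map_smul, natCast_zsmul, hs,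
      LinearMap.id_apply, wl_apply]
    congr 1
    exact Matrix.cons_head_tail v
  have h1 : ∀ u, l • D u = u := by
    intro u
    have := LinearMap.congr_fun h0 u
    rwa [LinearMap.smul_apply, natCast_zsmul] at this
  refine ⟨fun u v huv => ?_, fun u => ⟨D u, h1 u⟩⟩
  have h2 : D (l • u) = D (l • v) := congrArg D huv
  rwa [map_nsmul, map_nsmul, h1, h1] at h2

/-- exterior powers of divisible groups are divisible -/
theorem ext_divisible (hB : ∀ b : B, ∃ b', l • b' = b) (j : ℕ) (u : (⋀[ℤ]^(j + 1) B)) :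
    ∃ w, l • w = u := by
  have hu : u ∈ Submodule.span ℤ (Set.range (exteriorPower.ιMulti ℤ (M := B) (j + 1))) := by
    rw [exteriorPower.ιMulti_span]; trivial
  induction hu using Submodule.span_induction with
  | mem x hx =>
    obtain ⟨v, rfl⟩ := hx
    obtain ⟨b', hb⟩ := hB (v 0)
    refine ⟨exteriorPower.ιMulti ℤ (j + 1) (Function.update v 0 b'), ?_⟩
    rw [← natCast_zsmul, ← AlternatingMap.map_update_smul, natCast_zsmul, hb,
      Function.update_eq_self]
  | zero => exact ⟨0, smul_zero _⟩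
  | add x y _ _ hx hy =>
    obtain ⟨x', hx⟩ := hx
    obtain ⟨y', hy⟩ := hy
    exact ⟨x' + y', by rw [smul_add, hx, hy]⟩
  | smul c x _ hx =>
    obtain ⟨x', hx⟩ := hx
    exact ⟨c • x', by rw [smul_comm, hx]⟩

end ext

end Pool.Agent.X321.GG
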