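import Pool.Agent.X321.GG.Dist
import Pool.Agent.X321.GG.Div
import Pool.Agent.TH358.GP.Main

set_option autoImplicit false

/-!
# Divisibility in Goncharov's complexes
-/

namespace Pool.Agent.X321.GG

open GonP
open scoped TensorProduct
open Pool.Agent.TH358.GP (R_one pow_mem_R1 b_mk toQuo_add toQuo_zsmul toQuo_zero toQuo_eq)

/-! ### tensoring with the rational numbers -/

theorem toRat_zero_iff {A : Type} [AddCommGroup A] (a : A) (h : toRat a = 0) :
    ∃ N : ℕ, 0 < N ∧ N • a = 0 := by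
  have h1 : IsLocalizedModule (nonZeroDivisors ℤ) (TensorProduct.mk ℤ ℚ A 1) :=
    (isLocalizedModule_iff_isBaseChange (nonZeroDivisors ℤ) ℚ (TensorProduct.mk ℤ ℚ A 1)).mpr
      (TensorProduct.isBaseChange ℤ A ℚ)
  have h2 : (TensorProduct.mk ℤ ℚ A 1) a = 0 := h
  obtain ⟨c, hc⟩ := (IsLocalizedModule.eq_zero_iff (nonZeroDivisors ℤ) _).1 h2
  have hc0 : (c : ℤ) ≠ 0 := nonZeroDivisors.coe_ne_zero c
  refine ⟨(c : ℤ).natAbs, Int.natAbs_pos.2 hc0, ?_⟩
  have hc' : (c : ℤ) • a = 0 := hc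
  rcases Int.natAbs_eq (c : ℤ) with h3 | h3
  · rw [h3, natCast_zsmul] at hc'
    exact hc'
  · rw [h3, neg_smul, natCast_zsmul, neg_eq_zero] at hc'
    exact hc'

theorem toRat_inj {A : Type} [AddCommGroup A]
    (h : ∀ N : ℕ, 0 < N → ∀ a : A, N • a = 0 → a = 0) : Function.Injective (toRat (A := A)) := by
  intro a b hab
  have h1 : toRat (a - b) = 0 := by
    have : toRat (a - b) = toRat a - toRat b := TensorProduct.tmul_sub _ _ _
    rw [this, hab, sub_self]
  obtain ⟨N, hN, h2⟩ := toRat_zero_iff _ h1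
  exact sub_eq_zero.1 (h N hN _ h2)

theorem toRat_surj {A : Type} [AddCommGroup A]
    (h : ∀ N : ℕ, 0 < N → ∀ a : A, ∃ b, N • b = a) : Function.Surjective (toRat (A := A)) := by
  intro u
  refine TensorProduct.induction_on u ⟨0, TensorProduct.tmul_zero _ _⟩ ?_ ?_
  · intro q a
    obtain ⟨b, hb⟩ := h q.den q.den_pos a
    refine ⟨q.num • b, ?_⟩
    have h1 : (q ⊗ₜ[ℤ] a : ℚ ⊗[ℤ] A) = ((q.den : ℤ) • q) ⊗ₜ[ℤ] b := by
      rw [TensorProduct.smul_tmul, natCast_zsmul, hb]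
    have h2 : (q.den : ℤ) • q = q.num • (1 : ℚ) := by
      rw [zsmul_eq_mul, zsmul_eq_mul, mul_one, Int.cast_natCast]
      exact Rat.den_mul_eq_num q
    rw [h1, h2, TensorProduct.smul_tmul]
    rfl
  · rintro _ _ ⟨a, rfl⟩ ⟨b, rfl⟩
    exact ⟨a + b, TensorProduct.tmul_add _ _ _⟩

/-! ### primes -/

theorem surj_primes {A : Type} [AddCommGroup A] (N : ℕ) (hN : 0 < N)
    (h : ∀ l : ℕ, l.Prime → l ∣ N → ∀ a : A, ∃ b, l • b = a) : ∀ a : A, ∃ b, N • b = a := by
  induction N using induction_on_primes with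
  | zero => exact absurd hN (lt_irrefl 0)
  | one => exact fun a => ⟨a, one_smul _ a⟩
  | prime_mul p n hp ih =>
    intro a
    have hn : 0 < n := Nat.pos_of_mul_pos_left hN
    obtain ⟨b, hb⟩ := h p hp (dvd_mul_right p n) a
    obtain ⟨c, hc⟩ := ih hn (fun l hl hd => h l hl (dvd_mul_of_dvd_right hd p)) b
    exact ⟨c, by rw [mul_smul, hc, hb]⟩

theorem inj_primes {A : Type} [AddCommGroup A] (N : ℕ) (hN : 0 < N)
    (h : ∀ l : ℕ, l.Prime → l ∣ N → ∀ a : A, l • a = 0 → a = 0) : ∀ a : A, N • a = 0 → a = 0 := by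
  induction N using induction_on_primes with
  | zero => exact absurd hN (lt_irrefl 0)
  | one => intro a ha; rwa [one_smul] at ha
  | prime_mul p n hp ih =>
    intro a ha
    have hn : 0 < n := Nat.pos_of_mul_pos_left hN
    rw [mul_smul] at ha
    exact ih hn (fun l hl hd => h l hl (dvd_mul_of_dvd_right hd p)) a
      (h p hp (dvd_mul_right p n) _ ha)

theorem bij_primes {A : Type} [AddCommGroup A] (N : ℕ) (hN : 0 < N)
    (h : ∀ l : ℕ, l.Prime → l ∣ N → Function.Bijective (fun a : A => l • a)) :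
    Function.Bijective (fun a : A => N • a) := by
  constructor
  · intro a b hab
    have h1 := inj_primes N hN (fun l hl hd a ha => (h l hl hd).1 (by
      beta_reduce; rw [ha, smul_zero])) (a - b) (by
        rw [smul_sub]; exact sub_eq_zero.2 hab)
    exact sub_eq_zero.1 h1
  · exact surj_primes N hN (fun l hl hd => (h l hl hd).2)

variable {F : Type} [Field F]

/-! ### the groups -/

theorem mem_R (m : ℕ) (r : ZP F) : r ∈ R (m + 2) F ↔ r ∈ H39Gon.R (m + 2) F := by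
  rw [R_eq]; rfl

theorem toQuo_nsmul {A : Type} [AddCommGroup A] (S : AddSubgroup A) (c : ℕ) (a : A) :
    toQuo S (c • a) = c • toQuo S a := rfl

theorem divide_R (l : ℕ) (hl : l.Prime) (h : RootClosed F l) (m : ℕ) (x : P1 F) :
    ∃ β : ZP F, gen x - l • β ∈ R (m + 2) F := by
  cases m with
  | zero =>
    obtain ⟨β, hβ⟩ := divide2 l hl h x
    refine ⟨β, (mem_R 0 _).2 ?_⟩
    have := hβ.1
    rwa [natCast_zsmul] at this
  | succ m =>
    obtain ⟨β, hβ⟩ := divideS l hl h m x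
    refine ⟨β, (mem_R (m + 1) _).2 ?_⟩
    have := hβ.1
    rwa [natCast_zsmul] at this

theorem divide_gen (l : ℕ) (hl : l.Prime) (h : RootClosed F l) (n : ℕ) (hn : 1 ≤ n) (x : P1 F) :
    ∃ β : ZP F, gen x - l • β ∈ R n F := by
  rcases Nat.lt_or_ge n 2 with h1 | h1
  · have h2 : n = 1 := by omega
    subst h2
    rw [R_one]
    cases x with
    | none =>
      refine ⟨0, ?_⟩
      rw [smul_zero, sub_zero]
      exact AddSubgroup.subset_closure (Or.inl (Or.inr rfl))
    | some x =>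
      by_cases hx : x = 0
      · subst hx
        refine ⟨0, ?_⟩
        rw [smul_zero, sub_zero]
        exact AddSubgroup.subset_closure (Or.inl (Or.inl rfl))
      · obtain ⟨y, rfl⟩ := h.1 x
        have hy : y ≠ 0 := fun h0 => hx (by rw [h0, zero_pow hl.ne_zero])
        refine ⟨gen (some y), ?_⟩
        have := pow_mem_R1 y hy l hl.one_le
        rwa [natCast_zsmul] at this
  · obtain ⟨m, rfl⟩ := Nat.exists_eq_add_of_le' h1
    exact divide_R l hl h m x

theorem B_div (l : ℕ) (hl : l.Prime) (h : RootClosed F l) (n : ℕ) (hn : 1 ≤ n) (b : B n F) :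
    ∃ c, l • c = b := by
  obtain ⟨a, rfl⟩ := b_mk b
  induction a using Finsupp.induction_linear with
  | zero => exact ⟨0, by rw [smul_zero]; rfl⟩
  | add f g hf hg =>
    obtain ⟨c, hc⟩ := hf
    obtain ⟨d, hd⟩ := hg
    exact ⟨c + d, by rw [smul_add, hc, hd]; rfl⟩
  | single x c =>
    obtain ⟨β, hβ⟩ := divide_gen l hl h n hn x
    have h1 := toQuo_eq _ _ _ hβ
    refine ⟨c • toQuo (R n F) β, ?_⟩
    rw [smul_comm, ← toQuo_nsmul, ← h1, ← toQuo_zsmul]
    congr 1
    rw [gen, Finsupp.smul_single, smul_eq_mul, mul_one]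

theorem UV_div (l : ℕ) (hl : l.Prime) (h : RootClosed F l) (b : UV F) : ∃ c, l • c = b := by
  obtain ⟨y, hy⟩ := h.1 (b.toMul : F)
  have hy0 : y ≠ 0 := by
    intro h0
    rw [h0, zero_pow hl.ne_zero] at hy
    exact (b.toMul).ne_zero hy.symm
  refine ⟨Additive.ofMul (Units.mk0 y hy0), ?_⟩
  rw [← ofMul_pow]
  have : (Units.mk0 y hy0) ^ l = b.toMul := by
    ext; rw [Units.val_pow_eq_pow_val, Units.val_mk0, hy]
  rw [this]
  rfl

theorem Ext_div (l : ℕ) (hl : l.Prime) (h : RootClosed F l) (j : ℕ) (b : ExtPow (UV F) (j + 1)) :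
    ∃ c, l • c = b :=
  ext_divisible l (UV_div l hl h) j b

theorem Ext_bij (l : ℕ) (hl : l.Prime) (h : RootClosed F l) (j : ℕ) :
    Function.Bijective (fun u : ExtPow (UV F) (j + 2) => l • u) :=
  ext_div l (UV_div l hl h) j

theorem Tens_bij (l : ℕ) (hl : l.Prime) (h : RootClosed F l) (n j : ℕ) (hn : 1 ≤ n) :
    Function.Bijective (fun u : Tens (B n F) (ExtPow (UV F) (j + 1)) => l • u) :=
  tens_div l (B_div l hl h n hn) (Ext_div l hl h j)

theorem TensU_bij (l : ℕ) (hl : l.Prime) (h : RootClosed F l) (n : ℕ) (hn : 1 ≤ n) :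
    Function.Bijective (fun u : Tens (B n F) (UV F) => l • u) :=
  tens_div l (B_div l hl h n hn) (UV_div l hl h)

/-! ### degree one -/

theorem tf_transfer {A A' : Type} [AddCommGroup A] [AddCommGroup A'] (e : A ≃+ A') (l : ℕ)
    (h : ∀ u : A, l • u = 0 → u = 0) (u : A') (hu : l • u = 0) : u = 0 := by
  have h1 : l • e.symm u = 0 := by rw [← map_nsmul, hu, map_zero]
  have h2 := h _ h1
  rw [← e.apply_symm_apply u, h2, map_zero]

theorem bij_tf {A : Type} [AddCommGroup A] {l : ℕ} (h : Function.Bijective (fun a : A => l • a))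
    (u : A) (hu : l • u = 0) : u = 0 :=
  h.1 (by beta_reduce; rw [hu, smul_zero])

theorem deg_one2 (l : ℕ) (hl : l.Prime) (h : RootClosed F l) (α : ZP F) (hα : α ∈ A2 F) :
    ∃ β ∈ A2 F, toQuo (R 2 F) α = l • toQuo (R 2 F) β := by
  rw [A2_eq, SetLike.mem_coe, LinearMap.mem_ker] at hα
  obtain ⟨β, hβ, h1⟩ := divide_all (H39Gon.R 2 F) (H39Gon.delta2 F) l (fun u hu => by
    rw [Nat.cast_smul_eq_nsmul] at hu
    exact bij_tf (ext_div l (UV_div l hl h) 0) u hu) (divide2 l hl h) α hα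
  refine ⟨β, ?_, ?_⟩
  · rw [A2_eq, SetLike.mem_coe, LinearMap.mem_ker]
    exact hβ
  · rw [← toQuo_nsmul]
    apply toQuo_eq
    rw [natCast_zsmul] at h1
    exact (mem_R 0 _).2 h1

theorem deg_oneS (l : ℕ) (hl : l.Prime) (h : RootClosed F l) (m : ℕ) (α : ZP F)
    (hα : α ∈ AS F (R (m + 2) F)) :
    ∃ β ∈ AS F (R (m + 2) F), toQuo (R (m + 3) F) α = l • toQuo (R (m + 3) F) β := by
  have e := AS_eq (F := F) (H39Gon.R (m + 2) F) (R (m + 2) F) (R_eq m)
  rw [e, SetLike.mem_coe, LinearMap.mem_ker] at hα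
  obtain ⟨β, hβ, h1⟩ := divide_all (H39Gon.R (m + 3) F) (H39Gon.deltaS F (H39Gon.R (m + 2) F)) l
    (fun u hu => by
      rw [Nat.cast_smul_eq_nsmul] at hu
      exact tf_transfer (eTens (eQ (H39Gon.R (m + 2) F) (R (m + 2) F) (R_eq m))
        (AddEquiv.refl (UV F))) l (bij_tf (TensU_bij l hl h (m + 2) (by omega))) u hu)
    (divideS l hl h m) α hα
  refine ⟨β, ?_, ?_⟩
  · rw [e, SetLike.mem_coe, LinearMap.mem_ker]
    exact hβ
  · rw [← toQuo_nsmul]
    apply toQuo_eq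
    rw [natCast_zsmul] at h1
    exact (mem_R (m + 1) _).2 h1

theorem deg_one_primes {A : Type} [AddCommGroup A] (K : Set A) (S : AddSubgroup A) (N : ℕ)
    (hN : 0 < N) (h : ∀ l : ℕ, l.Prime → l ∣ N → ∀ α ∈ K, ∃ β ∈ K, toQuo S α = l • toQuo S β) :
    ∀ α ∈ K, ∃ β ∈ K, toQuo S α = N • toQuo S β := by
  induction N using induction_on_primes with
  | zero => exact absurd hN (lt_irrefl 0)
  | one => exact fun a ha => ⟨a, ha, (one_smul _ _).symm⟩
  | prime_mul p n hp ih =>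
    intro a ha
    have hn : 0 < n := Nat.pos_of_mul_pos_left hN
    obtain ⟨b, hb, hab⟩ := h p hp (dvd_mul_right p n) a ha
    obtain ⟨c, hc, hbc⟩ := ih hn (fun l hl hd => h l hl (dvd_mul_of_dvd_right hd p)) b hb
    exact ⟨c, hc, by rw [mul_smul, ← hbc, hab]⟩

/-! ### the distribution relation -/

theorem distribution (N : ℕ) (hN : 0 < N) (ζ : F) (hζ : IsPrimitiveRoot ζ N) (m : ℕ) (x : F) :
    toQuo (R (m + 2) F) (gen (some (x ^ N))) =
      N ^ (m + 1) • ∑ i ∈ Finset.range N, toQuo (R (m + 2) F) (gen (some (ζ ^ i * x))) := by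
  have h1 := dist_rel N hN m F ζ hζ x
  unfold DD at h1
  have e1 : ∑ i ∈ Finset.range N, toQuo (R (m + 2) F) (gen (some (ζ ^ i * x))) =
      toQuo (R (m + 2) F) (∑ i ∈ Finset.range N, gen (some (ζ ^ i * x))) :=
    (map_sum (QuotientAddGroup.mk' (R (m + 2) F)) _ _).symm
  rw [e1, ← toQuo_nsmul]
  apply toQuo_eq
  rw [mem_R]
  rw [← natCast_zsmul, Nat.cast_pow]
  exact h1

/-! ### algebraically closed fields -/

theorem rootClosed (F : Type) [Field F] [IsAlgClosed F] (l : ℕ) (hl : l.Prime) :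
    RootClosed F l := by
  refine ⟨fun x => IsAlgClosed.exists_pow_nat_eq x hl.pos, ?_⟩
  by_cases hc : (l : F) = 0
  · left
    have h1 : ringChar F = l := CharP.ringChar_of_prime_eq_zero hl hc
    rw [← h1]
    exact ringChar.charP F
  · right
    have : NeZero (l : F) := ⟨hc⟩
    obtain ⟨ζ, hζ⟩ := IsAlgClosed.exists_root (Polynomial.cyclotomic l F)
      (Polynomial.degree_cyclotomic_pos l F hl.pos).ne'
    exact ⟨ζ, Polynomial.isRoot_cyclotomic_iff.1 hζ⟩

end Pool.Agent.X321.GG
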